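import Pool.Agent.Helper47.ER.Goals
import Pool.Agent.Helper4.EQ.PAR
import Mathlib

/-!
# Project ER (MP_5b9a11_al): packet PAR2, the parity of the fixed points of abelian subgroups
-/

set_option autoImplicit false

namespace Pool.Agent.Helper13.ER.PAR2

open Pool.Agent.Helper98.EQ (mono Coc AS cc)
open Pool.Agent.Helper4.EQ.PAR (zp same fix_iff fix_mem fix_of_mem pt cc_fix card_fix)
open Pool.Agent.Helper47.EP (Dat Hs Om)
open Pool.Agent.Helper47.ER

variable {p : ℕ} [hp : Fact p.Prime] {D : Type} [Group D] [Finite D]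

theorem mem_stab (a : AS p D) (d : D) :
    d • a = a ↔ (Quotient.out a.2)⁻¹ * d * Quotient.out a.2 ∈ a.1.1 := by
  constructor
  · intro h
    exact fix_mem d a h _ (QuotientGroup.out_eq' _)
  · intro h
    have h2 := fix_of_mem d a.1 (Quotient.out a.2) h
    have h3 : pt a.1 (Quotient.out a.2) = a := by
      obtain ⟨C, c⟩ := a
      unfold pt
      rw [QuotientGroup.out_eq']
    rwa [h3] at h2

/-- the stabiliser has `p` elements -/
theorem stab_card (a : AS p D) : Nat.card (MulAction.stabilizer D a) = p := by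
  have e : MulAction.stabilizer D a ≃ a.1.1 :=
    { toFun := fun d => ⟨(Quotient.out a.2)⁻¹ * d.1 * Quotient.out a.2, (mem_stab a d.1).1 d.2⟩
      invFun := fun c => ⟨Quotient.out a.2 * c.1 * (Quotient.out a.2)⁻¹, (mem_stab a _).2 (by
        have h : (Quotient.out a.2)⁻¹ * (Quotient.out a.2 * c.1 * (Quotient.out a.2)⁻¹) *
          Quotient.out a.2 = c.1 := by group
        rw [h]
        exact c.2)⟩
      left_inv := fun d => by
        refine Subtype.ext ?_
        show Quotient.out a.2 * ((Quotient.out a.2)⁻¹ * d.1 * Quotient.out a.2) *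
          (Quotient.out a.2)⁻¹ = d.1
        group
      right_inv := fun c => by
        refine Subtype.ext ?_
        show (Quotient.out a.2)⁻¹ * (Quotient.out a.2 * c.1 * (Quotient.out a.2)⁻¹) *
          Quotient.out a.2 = c.1
        group }
  rw [Nat.card_congr e]
  exact a.1.2

theorem stab_zp (a : AS p D) (w : D) (h1 : w ≠ 1) (h : w • a = a) :
    Subgroup.zpowers w = MulAction.stabilizer D a :=
  zp (MulAction.stabilizer D a) (stab_card a) w h h1

theorem ord (a : AS p D) (w : D) (h1 : w ≠ 1) (h : w • a = a) : orderOf w = p := by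
  rw [← Nat.card_zpowers, stab_zp a w h1 h, stab_card]

theorem stab_le (W : Subgroup D) (a : AS p D) (w : D) (hw : w ∈ W) (h1 : w ≠ 1) (h : w • a = a) :
    MulAction.stabilizer D a ≤ W := by
  rw [← stab_zp a w h1 h, Subgroup.zpowers_le]
  exact hw

/-! ### the free points -/

/-- the points with trivial stabiliser in `W` -/
def Fr (W : Subgroup D) (a : AS p D) : Prop := ∀ w ∈ W, w • a = a → w = 1

omit hp [Finite D] in
theorem Fr_smul {W : Subgroup D} {a : AS p D} (ha : Fr W a) (h : D) (hh : h ∈ W) :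
    Fr W (h • a) := by
  intro w hw hwa
  have h1 : (h⁻¹ * w * h) • a = a := by
    rw [mul_smul, mul_smul, hwa, inv_smul_smul]
  have h2 := ha _ (W.mul_mem (W.mul_mem (W.inv_mem hh) hw) hh) h1
  have h3 : w = h * (h⁻¹ * w * h) * h⁻¹ := by group
  rw [h3, h2]
  group

/-- the orbits -/
abbrev Ob (W : Subgroup D) : Type := Quotient (MulAction.orbitRel W (AS p D))

omit hp [Finite D] in
theorem exists_w (W : Subgroup D) (a : AS p D) :
    ∃ w : D, w ∈ W ∧ w • Quotient.out (Quotient.mk (MulAction.orbitRel W (AS p D)) a) = a := by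
  have h := Quotient.mk_out (s := MulAction.orbitRel W (AS p D)) a
  obtain ⟨w, hw⟩ := h
  refine ⟨(w : D)⁻¹, W.inv_mem w.2, ?_⟩
  rw [← hw]
  show (w : D)⁻¹ • (w : D) • a = a
  rw [inv_smul_smul]

omit hp [Finite D] in
theorem mk_smul (W : Subgroup D) (a : AS p D) (w : D) (hw : w ∈ W) :
    Quotient.mk (MulAction.orbitRel W (AS p D)) (w • a) = Quotient.mk _ a :=
  Quotient.sound ⟨⟨w, hw⟩, rfl⟩

omit hp [Finite D] in
theorem Fr_out {W : Subgroup D} {a : AS p D} (ha : Fr W a) :
    Fr W (Quotient.out (Quotient.mk (MulAction.orbitRel W (AS p D)) a)) := by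
  obtain ⟨w, hw, h⟩ := exists_w W a
  have h2 : Quotient.out (Quotient.mk (MulAction.orbitRel W (AS p D)) a) = w⁻¹ • a := by
    conv_rhs => rw [← h]
    rw [inv_smul_smul]
  rw [h2]
  exact Fr_smul ha _ (W.inv_mem hw)

omit hp [Finite D] in
theorem Fr_inj {W : Subgroup D} {a : AS p D} (ha : Fr W a) {v w : D} (hv : v ∈ W) (hw : w ∈ W)
    (h : v • a = w • a) : v = w := by
  have h1 : (w⁻¹ * v) • a = a := by
    rw [mul_smul, h, inv_smul_smul]
  have h2 := ha _ (W.mul_mem (W.inv_mem hw) hv) h1
  rw [inv_mul_eq_one] at h2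
  exact h2.symm

/-- the free orbits -/
abbrev Om' (W : Subgroup D) : Type := {o : Ob (p := p) W // Fr W (Quotient.out o)}

omit hp [Finite D] in
theorem card_free (W : Subgroup D) :
    Nat.card {a : AS p D // Fr W a} = Nat.card (Om' (p := p) W) * Nat.card W := by
  rw [← Nat.card_prod]
  symm
  refine Nat.card_eq_of_bijective
    (fun q : Om' (p := p) W × W => (⟨(q.2 : D) • Quotient.out q.1.1,
      Fr_smul q.1.2 _ q.2.2⟩ : {a : AS p D // Fr W a})) ⟨?_, ?_⟩
  · rintro ⟨⟨o, ho⟩, ⟨w, hw⟩⟩ ⟨⟨o', ho'⟩, ⟨w', hw'⟩⟩ h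
    have h1 : w • Quotient.out o = w' • Quotient.out o' := congrArg Subtype.val h
    have h2 : o = o' := by
      have h3 := congrArg (Quotient.mk (MulAction.orbitRel W (AS p D))) h1
      rw [mk_smul W _ w hw, mk_smul W _ w' hw', Quotient.out_eq, Quotient.out_eq] at h3
      exact h3
    subst h2
    have h4 := Fr_inj ho hw hw' h1
    subst h4
    rfl
  · rintro ⟨a, ha⟩
    obtain ⟨w, hw, h⟩ := exists_w W a
    exact ⟨⟨⟨Quotient.mk _ a, Fr_out ha⟩, ⟨w, hw⟩⟩, Subtype.ext h⟩

theorem fixed_card (T : Dat p) (hc : Coc (A := AS p D) (D := D) cc) (W : Subgroup D) :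
    fx (mono T cc hc) W = T.l ^ (2 * Nat.card (Om' (p := p) W)) := by
  classical
  unfold fx
  have key : ∀ v : AS p D → T.K, (∀ h ∈ W, (mono T cc hc).m h v = v) → ∀ h ∈ W, ∀ a,
      v a = T.t (cc h a) (v (h⁻¹ • a)) := by
    intro v hv h hh a
    exact (congrFun (hv h hh) a).symm
  have hzero : ∀ v : AS p D → T.K, (∀ h ∈ W, (mono T cc hc).m h v = v) → ∀ a, ¬ Fr W a →
      v a = 0 := by
    intro v hv a ha
    unfold Fr at ha
    push Not at ha
    obtain ⟨w, hw, hwa, h1⟩ := ha
    have h2 := key v hv w hw a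
    have h3 : w⁻¹ • a = a := by rw [inv_smul_eq_iff, hwa]
    rw [h3] at h2
    refine T.inj (cc w a) ?_ (v a) h2.symm
    intro h4
    exact h1 ((cc_fix w a hwa).1 h4)
  choose wt hwt hwt2 using exists_w (p := p) W
  have h1 : Nat.card {v : AS p D → T.K // ∀ h ∈ W, (mono T cc hc).m h v = v} =
      Nat.card (Om' (p := p) W → T.K) := by
    refine Nat.card_eq_of_bijective (fun v o => v.1 (Quotient.out o.1)) ⟨?_, ?_⟩
    · rintro ⟨v, hv⟩ ⟨v', hv'⟩ h
      refine Subtype.ext ?_
      funext a
      by_cases ha : Fr W a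
      · have e : (wt a)⁻¹ • a = Quotient.out (Quotient.mk (MulAction.orbitRel W (AS p D)) a) := by
          rw [inv_smul_eq_iff, hwt2]
        show v a = v' a
        rw [key v hv (wt a) (hwt a) a, key v' hv' (wt a) (hwt a) a, e]
        exact congrArg _ (congrFun h ⟨Quotient.mk _ a, Fr_out ha⟩)
      · show v a = v' a
        rw [hzero v hv a ha, hzero v' hv' a ha]
    · intro f
      refine ⟨⟨fun a => if h : Fr W a then T.t (cc (wt a) a) (f ⟨Quotient.mk _ a, Fr_out h⟩)
        else 0, ?_⟩, ?_⟩
      · intro h hh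
        funext a
        show T.t (cc h a) (if h' : Fr W (h⁻¹ • a) then T.t (cc (wt (h⁻¹ • a)) (h⁻¹ • a))
          (f ⟨Quotient.mk _ (h⁻¹ • a), Fr_out h'⟩) else 0) = if h : Fr W a then
            T.t (cc (wt a) a) (f ⟨Quotient.mk _ a, Fr_out h⟩) else 0
        have hh' := W.inv_mem hh
        by_cases ha : Fr W a
        · have ha' : Fr W (h⁻¹ • a) := Fr_smul ha _ hh'
          rw [dif_pos ha, dif_pos ha']
          have e1 : (⟨Quotient.mk _ (h⁻¹ • a), Fr_out ha'⟩ : Om' (p := p) W) =
              ⟨Quotient.mk _ a, Fr_out ha⟩ := Subtype.ext (mk_smul W a _ hh')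
          rw [e1]
          have e2 : wt (h⁻¹ • a) = h⁻¹ * wt a := by
            refine Fr_inj (Fr_out ha) (hwt _) (W.mul_mem hh' (hwt a)) ?_
            rw [mul_smul, hwt2 a]
            have e3 := hwt2 (h⁻¹ • a)
            rw [mk_smul W a _ hh'] at e3
            exact e3
          rw [e2, ← T.t_add, ← hc, mul_inv_cancel_left]
        · have ha' : ¬ Fr W (h⁻¹ • a) := by
            intro h2
            apply ha
            have h3 := Fr_smul h2 h hh
            rwa [smul_inv_smul] at h3
          rw [dif_neg ha, dif_neg ha', map_zero]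
      · funext o
        obtain ⟨o, ho⟩ := o
        show (if h : Fr W (Quotient.out o) then T.t (cc (wt (Quotient.out o)) (Quotient.out o))
          (f ⟨Quotient.mk _ (Quotient.out o), Fr_out h⟩) else 0) = f ⟨o, ho⟩
        rw [dif_pos ho]
        have e1 : (⟨Quotient.mk _ (Quotient.out o), Fr_out ho⟩ : Om' (p := p) W) = ⟨o, ho⟩ :=
          Subtype.ext (Quotient.out_eq o)
        rw [e1]
        have e2 : wt (Quotient.out o) = 1 := by
          refine Fr_inj ho (hwt _) W.one_mem ?_
          rw [one_smul]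
          have e3 := hwt2 (Quotient.out o)
          rw [Quotient.out_eq] at e3
          exact e3
        rw [e2, (cc_fix 1 (Quotient.out o) (one_smul D _)).2 rfl, T.t_zero]
  rw [h1, Nat.card_fun, Nat.card_eq_fintype_card, T.card, ← pow_mul]

/-! ### the other points -/

theorem count (W : Subgroup D) : ∃ m : ℕ, (∀ w : D, orderOf w = p → m * p = Nat.card D) ∧
    (tp p W - 1) * m = Nat.card {a : AS p D // ¬ Fr W a} * (p - 1) := by
  classical
  have := Fintype.ofFinite D
  set P : Finset D := Finset.univ.filter fun w => w ∈ W ∧ w ≠ 1 ∧ w ^ p = 1 with hP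
  have hPc : P.card = tp p W - 1 := by
    have h1 : P = (Finset.univ.filter fun w => w ∈ W ∧ w ^ p = 1).erase 1 := by
      ext w
      rw [hP, Finset.mem_erase, Finset.mem_filter, Finset.mem_filter]
      tauto
    rw [h1, Finset.card_erase_of_mem]
    · unfold tp
      rw [Nat.card_eq_fintype_card, Fintype.card_subtype]
    · rw [Finset.mem_filter]
      exact ⟨Finset.mem_univ _, W.one_mem, one_pow _⟩
  have hm : ∀ w : D, orderOf w = p → Nat.card D / p * p = Nat.card D := by
    intro w hw
    exact Nat.div_mul_cancel ⟨_, (mul_comm _ _).trans (card_fix (p := p) w hw) |>.symm⟩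
  refine ⟨Nat.card D / p, hm, ?_⟩
  have h := Finset.sum_card_bipartiteAbove_eq_sum_card_bipartiteBelow
    (fun (w : D) (a : AS p D) => w • a = a) (s := P) (t := Finset.univ)
  have h1 : ∀ w ∈ P, (Finset.bipartiteAbove (fun (w : D) (a : AS p D) => w • a = a)
      Finset.univ w).card = Nat.card D / p := by
    intro w hw
    rw [hP, Finset.mem_filter] at hw
    have ho : orderOf w = p := orderOf_eq_prime hw.2.2.2 hw.2.2.1
    have h2 := card_fix (p := p) w ho
    rw [Nat.card_eq_fintype_card, Fintype.card_subtype] at h2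
    have h3 := hm w ho
    have h4 := Nat.eq_of_mul_eq_mul_right hp.out.pos (h2.trans h3.symm)
    exact h4
  have h2 : ∀ a : AS p D, (Finset.bipartiteBelow (fun (w : D) (a : AS p D) => w • a = a)
      P a).card = if ¬ Fr W a then p - 1 else 0 := by
    intro a
    by_cases ha : Fr W a
    · rw [if_neg (not_not.2 ha), Finset.card_eq_zero, Finset.eq_empty_iff_forall_notMem]
      intro w hw
      rw [Finset.mem_bipartiteBelow, hP, Finset.mem_filter] at hw
      exact hw.1.2.2.1 (ha w hw.1.2.1 hw.2)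
    · rw [if_pos ha]
      unfold Fr at ha
      push Not at ha
      obtain ⟨w, hw, hwa, h1⟩ := ha
      have hle := stab_le W a w hw h1 hwa
      have h3 : Finset.bipartiteBelow (fun (w : D) (a : AS p D) => w • a = a) P a =
          (Finset.univ.filter fun w => w ∈ MulAction.stabilizer D a).erase 1 := by
        ext x
        rw [Finset.mem_bipartiteBelow, hP, Finset.mem_erase, Finset.mem_filter,
          Finset.mem_filter, MulAction.mem_stabilizer_iff]
        constructor
        · rintro ⟨⟨-, h4, h5, h6⟩, h7⟩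
          exact ⟨h5, Finset.mem_univ _, h7⟩
        · rintro ⟨h4, -, h5⟩
          refine ⟨⟨Finset.mem_univ _, hle h5, h4, ?_⟩, h5⟩
          rw [← orderOf_dvd_iff_pow_eq_one, ord a x h4 h5]
      rw [h3, Finset.card_erase_of_mem]
      · have h4 := stab_card a
        rw [Nat.card_eq_fintype_card, Fintype.card_subtype] at h4
        rw [h4]
      · rw [Finset.mem_filter]
        exact ⟨Finset.mem_univ _, Subgroup.one_mem _⟩
  rw [Finset.sum_congr rfl h1, Finset.sum_congr rfl fun a _ => h2 a, Finset.sum_const,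
    ← Finset.sum_filter, Finset.sum_const, smul_eq_mul, smul_eq_mul, hPc] at h
  rw [h, Nat.card_eq_fintype_card, Fintype.card_subtype]

theorem geom (q ρ : ℕ) : (q + 1) ^ ρ = q * (∑ i ∈ Finset.range ρ, (q + 1) ^ i) + 1 := by
  induction ρ with
  | zero => simp
  | succ n ih =>
    rw [Finset.sum_range_succ, pow_succ, mul_add]
    nlinarith [ih]

theorem geom_par (n ρ : ℕ) (hn : Odd n) : Even ((∑ i ∈ Finset.range ρ, n ^ i) + ρ) := by
  induction ρ with
  | zero => simp
  | succ k ih =>
    rw [Finset.sum_range_succ]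
    have h1 : Even (n ^ k + 1) := (hn.pow).add_one
    have h2 := ih.add h1
    have h3 : (∑ i ∈ Finset.range k, n ^ i) + n ^ k + (k + 1) =
      (∑ i ∈ Finset.range k, n ^ i) + k + (n ^ k + 1) := by ring
    rw [h3]
    exact h2

/-- packet PAR2 -/
theorem t : S_PAR2 := by
  intro p hp T Q _ _ hp2 hQ hc W hW a ρ ha hρ
  classical
  have hodd : Odd p := hp.out.odd_of_ne_two hp2
  have hl : 2 ≤ T.l := T.prime.two_le
  rw [fixed_card T hc W] at ha
  have ha2 : Nat.card (Om' (p := p) W) = a := by
    have := Nat.pow_right_injective hl ha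
    omega
  obtain ⟨m, hm1, hm2⟩ := count (p := p) W
  have hcard : Fintype.card (AS p Q) =
      Nat.card {a : AS p Q // Fr W a} + Nat.card {a : AS p Q // ¬ Fr W a} := by
    rw [← Nat.card_eq_fintype_card, ← Nat.card_sum]
    exact (Nat.card_congr (Equiv.sumCompl (fun a : AS p Q => Fr W a))).symm
  rw [card_free, ha2] at hcard
  obtain ⟨q, hq⟩ : ∃ q, p = q + 1 := ⟨p - 1, by have := hp.out.pos; omega⟩
  have hqpos : 0 < q := by have := hp.out.two_le; omega
  set g := ∑ i ∈ Finset.range ρ, p ^ i with hg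
  have hgeo : p ^ ρ = q * g + 1 := by
    rw [hg, hq]
    exact geom q ρ
  rw [hρ, hgeo] at hm2
  have hNF : Nat.card {a : AS p Q // ¬ Fr W a} = g * m := by
    have h1 : q * (g * m) = q * Nat.card {a : AS p Q // ¬ Fr W a} := by
      have h2 : p - 1 = q := by omega
      rw [h2, Nat.add_sub_cancel] at hm2
      rw [← mul_assoc, hm2, mul_comm]
    exact (Nat.eq_of_mul_eq_mul_left hqpos h1).symm
  rw [hNF] at hcard
  have hpar : Even (g * m + ρ) := by
    rcases Nat.eq_zero_or_pos ρ with h0 | h0
    · subst h0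
      rw [hg]
      simp
    · have hgp := geom_par p ρ hodd
      rw [← hg] at hgp
      have hex : ∃ w : Q, orderOf w = p := by
        by_contra hcon
        push Not at hcon
        have h1 : tp p W ≤ 1 := by
          unfold tp
          rw [Finite.card_le_one_iff_subsingleton]
          have h2 : ∀ x : Q, x ^ p = 1 → x = 1 := by
            intro x hx
            by_contra h3
            exact hcon x (orderOf_eq_prime hx h3)
          exact ⟨fun x y => Subtype.ext ((h2 x.1 x.2.2).trans (h2 y.1 y.2.2).symm)⟩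
        rw [hρ] at h1
        have h2 : p ^ 1 ≤ p ^ ρ := Nat.pow_le_pow_right hp.out.pos h0
        have h3 := hp.out.two_le
        rw [pow_one] at h2
        omega
      obtain ⟨w, hw⟩ := hex
      have hmodd : Odd m := by
        have h2 : Odd (Nat.card Q) := by
          obtain ⟨n, hn⟩ := IsPGroup.iff_card.1 hQ
          rw [hn]
          exact hodd.pow
        exact Odd.of_dvd_nat h2 ⟨_, (hm1 w hw).symm⟩
      obtain ⟨j, hj⟩ := hmodd
      rw [hj]
      have h4 : g * (2 * j + 1) + ρ = 2 * (g * j) + (g + ρ) := by ring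
      rw [h4]
      exact (even_two_mul _).add hgp
  have hWodd : Odd (Nat.card W) := by
    obtain ⟨n, hn⟩ := IsPGroup.iff_card.1 (hQ.to_subgroup W)
    rw [hn]
    exact hodd.pow
  rw [hcard]
  obtain ⟨j, hj⟩ := hWodd
  rw [hj]
  have h5 : a * (2 * j + 1) + g * m + a + ρ = 2 * (a * j + a) + (g * m + ρ) := by ring
  rw [h5]
  exact (even_two_mul _).add hpar

end Pool.Agent.Helper13.ER.PAR2
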